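import Mathlib
import Pool.Agent.H32.Sub

open Set Filter Topology

namespace Pool.Agent.Results.MP_8a65de_an.TwoPoints

section defs
variable {X : Type} [TopologicalSpace X]

/-- `N_T(U, V)` -/
def N (T : X → X) (U V : Set X) : Set ℕ := {n | (U ∩ T^[n] ⁻¹' V).Nonempty}

/-- topological transitivity -/
def Trans (T : X → X) : Prop :=
  ∀ U V : Set X, IsOpen U → U.Nonempty → IsOpen V → V.Nonempty → (N T U V).Nonempty

/-- the family `𝒩_T` -/
def Fam (T : X → X) : Set (Set ℕ) :=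
  {F | ∃ U V : Set X, IsOpen U ∧ U.Nonempty ∧ IsOpen V ∧ V.Nonempty ∧ N T U V ⊆ F}

/-- `ω_{𝒩_T}(x)` -/
def omegaN (T : X → X) (x : X) : Set X := ⋂ F ∈ Fam T, closure ((fun i => T^[i] x) '' F)

/-- `ω_T(y)` -/
def omega (T : X → X) (y : X) : Set X := ⋂ n ≥ 1, closure ((fun k => T^[k] y) '' Ici n)

end defs

open Pool.Agent.H32.Sub

def X : Set (ℕ → Fin 3) := {w | ∀ i j, w i = 1 → w (i + 2 ^ j) ≠ 1}

lemma inv : ∀ x ∈ X, (fun k => x (k + 1)) ∈ X := fun x h i j a => by
  simpa only [add_right_comm] using h (i + 1) j a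

lemma glue (u v : X) {L m : ℕ} (h : L ≤ 2 ^ m) : ∃ w : X, (∀ k < L, w.1 k = u.1 k) ∧
    ∀ k < L, ((sh inv)^[3 * 2 ^ m] w).1 k = v.1 k := by
  refine ⟨⟨fun k => if k < L then u.1 k else if 3 * 2 ^ m ≤ k ∧ k < 3 * 2 ^ m + L then
    v.1 (k - 3 * 2 ^ m) else 0, fun i j a b => ?_⟩, fun k hk => if_pos hk, fun k hk => ?_⟩
  · have hj : 0 < 2 ^ j := by positivity
    have : 2 ^ j ≤ 2 * 2 ^ m ∨ 4 * 2 ^ m ≤ 2 ^ j := by
      rcases le_or_gt j (m + 1) with c | c
      · exact Or.inl (by rw [← pow_succ']; exact Nat.pow_le_pow_right two_pos c)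
      · exact Or.inr (by rw [show 4 * 2 ^ m = 2 ^ (m + 2) by ring]; exact Nat.pow_le_pow_right two_pos c)
    simp only at a b
    split_ifs at a b with a1 a2 a3 a4 a5 a6 <;> try omega
    · exact u.2 i j a b
    · exact v.2 _ j a (by rwa [show i - 3 * 2 ^ m + 2 ^ j = i + 2 ^ j - 3 * 2 ^ m by omega])
  · rw [sh_iter]
    simp only
    rw [if_neg (by omega), if_pos (by omega), Nat.add_sub_cancel_left]

theorem result : ∃ (X : Type) (_ : MetricSpace X) (_ : CompactSpace X) (_ : Nontrivial X)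
    (T : X → X), (∀ x : X, ¬ IsOpen {x}) ∧ Continuous T ∧ Function.Surjective T ∧
      Trans (Prod.map T T) ∧ ∃ x, ∀ y, omega T y ≠ omegaN T x := by
  have hX : IsClosed X := by
    simp only [X, ofPred_forall, imp_iff_not_or, ofPred_or]
    exact isClosed_iInter fun i => isClosed_iInter fun j =>
      ((isClosed_discrete {a | ¬a = 1}).preimage (continuous_apply (A := fun _ => Fin 3) i)).union
      ((isClosed_discrete {a | a ≠ 1}).preimage (continuous_apply (A := fun _ => Fin 3) (i + 2 ^ j)))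
  have := isCompact_iff_compactSpace.1 hX.isCompact
  let c : Fin 3 → X := fun a => ⟨fun _ => if a = 1 then 0 else a, fun i j h => by
    revert h; fin_cases a <;> simp⟩
  let x : X := ⟨fun n => if Nat.log 2 n % 2 = 0 then 0 else 2, fun i j h => by
    simp only at h; split_ifs at h <;> omega⟩
  refine ⟨X, TopologicalSpace.metrizableSpaceMetric X, this, ⟨c 0, c 2, fun h => ?_⟩, sh inv,
    fun x h => ?_, sh_cont inv, fun x => ?_, fun U V hU ⟨u, hu⟩ hV ⟨v, hv⟩ => ?_, x, fun y h => ?_⟩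
  · simpa [c] using congrFun (congrArg Subtype.val h) 0
  · obtain ⟨L, hL⟩ := cyl (h.mem_nhds rfl)
    have := hL ⟨fun k => if k = L then (if x.1 L = 0 then 2 else 0) else x.1 k, fun i j a b => by
      simp only at a b
      split_ifs at a b <;> first | omega | exact x.2 i j a b⟩ fun k hk => if_neg hk.ne
    have := congrFun (congrArg Subtype.val this) L
    simp only [if_true] at this
    split_ifs at this <;> omega
  · refine ⟨⟨fun k => Nat.casesOn k 0 x.1, fun i j a => ?_⟩, rfl⟩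
    rcases i with _ | i
    · simp at a
    · rw [add_right_comm]; exact x.2 i j a
  · obtain ⟨L, hL⟩ := cyl2 (hU.mem_nhds hu)
    obtain ⟨M, hM⟩ := cyl2 (hV.mem_nhds hv)
    obtain ⟨a, a1, a2⟩ := glue u.1 v.1 (L := L + M) (m := L + M) Nat.lt_two_pow_self.le
    obtain ⟨b, b1, b2⟩ := glue u.2 v.2 (L := L + M) (m := L + M) Nat.lt_two_pow_self.le
    refine ⟨3 * 2 ^ (L + M), (a, b), hL _ (fun k hk => a1 k (by omega)) fun k hk => b1 k (by omega), ?_⟩
    rw [mem_preimage, Prod.map_iterate]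
    exact hM _ (fun k hk => a2 k (by omega)) fun k hk => b2 k (by omega)
  have h1 : ∀ e : ℕ, c (if e % 2 = 0 then 0 else 2) ∈ omega (sh inv) y := by
    intro e
    rw [h]
    refine mem_iInter₂.2 fun F ⟨U, V, hU, ⟨u, hu⟩, hV, ⟨v, hv⟩, hF⟩ => mem_closure_iff_nhds.2
      fun W hW => ?_
    obtain ⟨L, hL⟩ := cyl (hU.mem_nhds hu)
    obtain ⟨M, hM⟩ := cyl (hV.mem_nhds hv)
    obtain ⟨K, hK⟩ := cyl hW
    have h2 : 2 * (L + M + K) + e + 1 < 2 ^ (2 * (L + M + K) + e + 1) := Nat.lt_two_pow_self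
    obtain ⟨a, a1, a2⟩ := glue u v (L := L + M) (m := 2 * (L + M + K) + e + 1) (by omega)
    refine ⟨_, hK _ fun k hk => ?_, _, hF ⟨a, hL _ fun k hk => a1 k (by omega),
      hM _ fun k hk => a2 k (by omega)⟩, rfl⟩
    rw [sh_iter]
    have : Nat.log 2 (3 * 2 ^ (2 * (L + M + K) + e + 1) + k) = 2 * (L + M + K) + e + 1 + 1 :=
      Nat.log_eq_of_pow_le_of_lt_pow (by rw [pow_succ]; omega) (by rw [pow_succ, pow_succ _ (_ + 1)]; omega)
    simp only [x, c, this]
    by_cases b : e % 2 = 0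
    · rw [if_pos (by omega)]; simp [b]
    · rw [if_neg (by omega)]; simp [b]
  have cl : IsClopen {z : X | z.1 0 = z.1 1} :=
    (isClopen_discrete (diagonal (Fin 3))).preimage ((co X 0).prodMk (co X 1))
  have h2 : omega (sh inv) y ⊆ {z : X | z.1 0 = z.1 1} := by
    rw [h]
    have hF : N (sh inv) {z | z.1 0 = 1} {z | z.1 1 = 1} ∈ Fam (sh inv) := by
      have s : ∀ l : ℕ, Pi.single l 1 ∈ X := fun l i j a => by
        have : 0 < 2 ^ j := by positivity
        simp only [Pi.single_apply] at a ⊢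
        split_ifs at a ⊢ <;> omega
      exact ⟨_, _, (clopen X 0 1).isOpen, ⟨⟨_, s 0⟩, rfl⟩, (clopen X 1 1).isOpen, ⟨⟨_, s 1⟩, rfl⟩,
        subset_rfl⟩
    refine (biInter_subset_of_mem hF).trans (closure_minimal ?_ cl.isClosed)
    · rintro _ ⟨n, ⟨w, a1, a2⟩, rfl⟩
      simp only [mem_preimage, mem_ofPred_eq, sh_iter] at a1 a2 ⊢
      have : Nat.log 2 (n + 1) = Nat.log 2 n := by
        by_contra e
        have e1 := Nat.log_mono_right (b := 2) (Nat.le_succ n)
        have e2 := Nat.pow_log_le_self 2 (Nat.succ_ne_zero n)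
        have e3 := Nat.lt_pow_succ_log_self one_lt_two n
        have e4 := Nat.pow_le_pow_right two_pos (show Nat.log 2 n + 1 ≤ Nat.log 2 (n + 1) by
          simp only [Nat.succ_eq_add_one] at e1; omega)
        simp only [Nat.succ_eq_add_one] at *
        exact w.2 0 (Nat.log 2 (n + 1)) a1 (by rwa [show 0 + 2 ^ Nat.log 2 (n + 1) = n + 1 by omega])
      simp [x, this]
  obtain ⟨n, hn⟩ : ∃ n, ∀ k ≥ n, y.1 k = y.1 (k + 1) := by
    by_contra hc
    have f : ∃ᶠ k in atTop, (sh inv)^[k] y ∈ {z : X | z.1 0 = z.1 1}ᶜ := by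
      simpa [frequently_atTop, sh_iter] using hc
    obtain ⟨z, z1, z2⟩ := cl.compl.isClosed.isCompact.exists_mapClusterPt_of_frequently f
    exact z1 (h2 (mem_iInter₂.2 fun n _ => z2.clusterPt.mem_closure_of_mem _
      (mem_map.2 ((eventually_ge_atTop n).mono fun k hk => ⟨k, hk, rfl⟩))))
  have h3 : ∀ k, n ≤ k → y.1 k = y.1 n := fun k hk => by
    induction k, hk using Nat.le_induction with
    | base => rfl
    | succ k hk ih => rw [← hn k hk, ih]
  have h4 : omega (sh inv) y ⊆ {z : X | z.1 0 = y.1 n} :=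
    (biInter_subset_of_mem (s := Ici 1) (x := n + 1) (Nat.le_add_left 1 n)).trans (closure_minimal (by
      rintro _ ⟨k, hk, rfl⟩
      simp only [mem_ofPred_eq, sh_iter]
      exact h3 _ (by simp at hk; omega)) (clopen X 0 _).isClosed)
  have := (h4 (h1 0)).trans (h4 (h1 1)).symm
  simp [c] at this

end Pool.Agent.Results.MP_8a65de_an.TwoPoints
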